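import Pool.Agent.Q200.Trunc2

set_option autoImplicit false

namespace Pool.Agent.Results.MP_2fd64a_an.Unbounded

open Complex Real Filter Topology Polynomial
open scoped ENNReal

/-- Truncation of one coefficient: `(a/|a|) min(|a|,1)`, and `0` for `a = 0`. -/
noncomputable def cut (a : ℂ) : ℂ := a / (‖a‖ : ℂ) * ((min ‖a‖ 1 : ℝ) : ℂ)

/-- The operator `S`: every coefficient `a_j` is replaced by its truncation. -/
noncomputable def S (P : ℂ[X]) : ℂ[X] :=
  ∑ j ∈ Finset.range (P.natDegree + 1), monomial j (cut (P.coeff j))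

/-- The `L_p` (quasi-)norm over the unit circle with arc length measure. -/
noncomputable def nrm (p : ℝ) (P : ℂ[X]) : ℝ :=
  (∫ θ in (0 : ℝ)..2 * π, ‖P.eval (Complex.exp (θ * Complex.I))‖ ^ p) ^ (1 / p)

/-- `‖S_n‖^{comp}_p`: supremum over all nonzero complex polynomials of degree at most `n`. -/
noncomputable def normS (p : ℝ) (n : ℕ) : ℝ≥0∞ :=
  ⨆ (P : ℂ[X]) (_ : P ≠ 0) (_ : P.natDegree ≤ n), ENNReal.ofReal (nrm p (S P) / nrm p P)

theorem nrm_eq (p : ℝ) (P : ℂ[X]) :
    nrm p P = (2 * π * Pool.Agent.Q200.Trunc.I p P) ^ (1 / p) := by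
  unfold nrm Pool.Agent.Q200.Trunc.I
  rw [circleAverage_def, smul_eq_mul, ← mul_assoc, mul_inv_cancel₀ (by positivity), one_mul]
  congr 1
  apply intervalIntegral.integral_congr
  intro θ _
  simp [circleMap]

/-- **Q1 has a negative answer.** For every `p ∈ (0,2)` the norms `‖S_n‖^{comp}_p` tend to
infinity; in particular for no `p ∈ (0,2)` are they bounded by an absolute constant. -/
theorem result : ∀ p : ℝ, 0 < p → p < 2 → Tendsto (fun n : ℕ => normS p n) atTop (𝓝 ∞) := by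
  intro p hp hp2
  obtain ⟨ρ, hρ, hL⟩ := Pool.Agent.Q200.Trunc.exists_power p hp hp2
  rw [ENNReal.tendsto_nhds_top_iff_nat]
  intro m
  -- choose L
  have hρp : 1 < ρ ^ (1 / p) := Real.one_lt_rpow hρ (by positivity)
  obtain ⟨L, hLm⟩ := pow_unbounded_of_one_lt (m : ℝ) hρp
  obtain ⟨Q, V, hQV, hQ, hlt⟩ := hL L
  have hS : S Q = V := hQV.trunc_eq
  have hQ0 : Q ≠ 0 := by
    rintro rfl
    unfold Pool.Agent.Q200.Trunc.I at hQ
    simp only [eval_zero, norm_zero, Real.zero_rpow hp.ne', circleAverage_const] at hQ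
    exact lt_irrefl _ hQ
  have hratio : (m : ℝ) < nrm p (S Q) / nrm p Q := by
    rw [hS, nrm_eq, nrm_eq]
    have hpos : 0 < 2 * π * Pool.Agent.Q200.Trunc.I p Q := by positivity
    have hρL : 0 < ρ ^ L := by positivity
    rw [← Real.div_rpow (by nlinarith [Real.pi_pos]) hpos.le]
    refine hLm.trans_le ?_
    rw [← Real.rpow_natCast (ρ ^ (1 / p)) L, ← Real.rpow_mul (by linarith), mul_comm,
      Real.rpow_mul (by linarith), Real.rpow_natCast]
    apply Real.rpow_le_rpow hρL.le _ (by positivity)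
    rw [le_div_iff₀ hpos]
    nlinarith [Real.pi_pos]
  filter_upwards [eventually_ge_atTop Q.natDegree] with n hn
  have h1 : ENNReal.ofReal (nrm p (S Q) / nrm p Q) ≤ normS p n := by
    unfold normS
    exact le_iSup_of_le Q (le_iSup_of_le hQ0 (le_iSup_of_le hn le_rfl))
  refine lt_of_lt_of_le ?_ h1
  rw [← ENNReal.ofReal_natCast]
  exact (ENNReal.ofReal_lt_ofReal_iff (by linarith [(Nat.cast_nonneg m : (0 : ℝ) ≤ m)])).2 hratio

end Pool.Agent.Results.MP_2fd64a_an.Unbounded
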